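import Pool.Agent.Lib_helper44.G4I.Defs

/-!
# THH: the functions theta_tau are Hecke characters
-/

namespace Pool.Agent.G4I.THH

open NumberField NumberField.InfinitePlace Complex MeasureTheory Filter Topology
open Pool.Agent.HZ
open scoped Pointwise

variable {K : Type} [Field K] [NumberField K]

/-- the unitary part of an element at an infinite place -/
noncomputable def uw (w : InfinitePlace K) (a : K) : ℂ := w.embedding a / (w a : ℂ)

omit [NumberField K] in
theorem norm_uw (w : InfinitePlace K) {a : K} (ha : a ≠ 0) : ‖uw w a‖ = 1 := by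
  have h : w a ≠ 0 := by
    rw [Ne, map_eq_zero]; exact ha
  have h0 : (0 : ℝ) < w a := lt_of_le_of_ne (apply_nonneg w a) (Ne.symm h)
  unfold uw
  rw [norm_div, norm_embedding_eq, Complex.norm_real, Real.norm_eq_abs, abs_of_pos h0, div_self h]

omit [NumberField K] in
theorem uw_ne (w : InfinitePlace K) {a : K} (ha : a ≠ 0) : uw w a ≠ 0 := by
  intro h
  have := norm_uw w ha
  rw [h, norm_zero] at this
  exact zero_ne_one this

omit [NumberField K] in
theorem conj_uw (w : InfinitePlace K) {a : K} (ha : a ≠ 0) :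
    starRingEnd ℂ (uw w a) = (uw w a)⁻¹ := by
  rw [Complex.inv_def, Complex.normSq_eq_norm_sq, norm_uw w ha]
  simp

theorem uw_smul (τ : K ≃ₐ[ℚ] K) (w : InfinitePlace K) : ∃ ε : ℤ, (ε = 1 ∨ ε = -1) ∧
    ∀ a : K, a ≠ 0 → uw (τ • w) (τ a) = uw w a ^ ε := by
  have hval : ∀ a : K, (τ • w) (τ a) = w a := by
    intro a
    rw [InfinitePlace.smul_apply]
    simp
  have h1 : InfinitePlace.mk ((τ • w).embedding.comp (τ : K →+* K)) =
      InfinitePlace.mk w.embedding := by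
    rw [mk_embedding]
    apply InfinitePlace.ext
    intro a
    rw [InfinitePlace.apply, RingHom.comp_apply, norm_embedding_eq]
    exact hval a
  rcases InfinitePlace.mk_eq_iff.1 h1 with h | h
  · refine ⟨1, Or.inl rfl, fun a ha => ?_⟩
    unfold uw
    rw [hval, ← h, zpow_one]
    rfl
  · refine ⟨-1, Or.inr rfl, fun a ha => ?_⟩
    rw [zpow_neg_one, ← conj_uw w ha]
    unfold uw
    rw [hval, ← h, map_div₀, Complex.conj_ofReal]
    congr 1
    rw [ComplexEmbedding.conjugate_coe_eq, Complex.conj_conj]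
    rfl

theorem psiInf_eq (κ : InfinitePlace K → ℤ) (lam : InfinitePlace K → ℝ) (a : K) :
    psiInf κ lam a = ∏ w : InfinitePlace K, (uw w a ^ κ w *
      cexp (-((lam w * Real.log (w a) : ℝ) : ℂ) * I)) := rfl

theorem conj_psiInf_smul (κ : InfinitePlace K → ℤ) (lam : InfinitePlace K → ℝ)
    (τ : K ≃ₐ[ℚ] K) : ∃ κ' : InfinitePlace K → ℤ, ∀ a : K, a ≠ 0 →
      starRingEnd ℂ (psiInf κ lam (τ a)) = psiInf κ' (fun w => - lam (τ • w)) a := by
  choose ε hε h using fun w : InfinitePlace K => uw_smul τ w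
  refine ⟨fun w => - (ε w * κ (τ • w)), fun a ha => ?_⟩
  rw [psiInf_eq, psiInf_eq, map_prod]
  rw [← Equiv.prod_comp (MulAction.toPerm τ)]
  refine Finset.prod_congr rfl fun w _ => ?_
  have hval : (τ • w) (τ a) = w a := by
    rw [InfinitePlace.smul_apply]
    simp
  simp only [MulAction.toPerm_apply]
  rw [map_mul, map_zpow₀, h w a ha, hval, map_zpow₀, conj_uw w ha]
  congr 1
  · rw [inv_zpow', ← zpow_mul]
    congr 1
    ring
  · rw [← Complex.exp_conj]
    congr 1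
    simp

theorem psiInf_mul_psiInf (κ κ' : InfinitePlace K → ℤ) (lam lam' : InfinitePlace K → ℝ)
    {a : K} (ha : a ≠ 0) : psiInf κ lam a * psiInf κ' lam' a =
      psiInf (fun w => κ w + κ' w) (fun w => lam w + lam' w) a := by
  rw [psiInf_eq, psiInf_eq, psiInf_eq, ← Finset.prod_mul_distrib]
  refine Finset.prod_congr rfl fun w _ => ?_
  rw [zpow_add₀ (uw_ne w ha)]
  have : (-((((lam w + lam' w) * Real.log (w a) : ℝ)) : ℂ) * I) =
      (-((lam w * Real.log (w a) : ℝ) : ℂ) * I) + (-((lam' w * Real.log (w a) : ℝ) : ℂ) * I) := by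
    push_cast
    ring
  rw [this, Complex.exp_add]
  ring

/-- reduce the exponents at the real places modulo 2 -/
noncomputable def red (κ : InfinitePlace K → ℤ) (w : InfinitePlace K) : ℤ :=
  open Classical in if w.IsReal then κ w % 2 else κ w

theorem psiInf_red (κ : InfinitePlace K → ℤ) (lam : InfinitePlace K → ℝ) {a : K} (ha : a ≠ 0) :
    psiInf (red κ) lam a = psiInf κ lam a := by
  rw [psiInf_eq, psiInf_eq]
  refine Finset.prod_congr rfl fun w _ => ?_
  unfold red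
  by_cases h : w.IsReal
  · rw [if_pos h]
    have h2 : uw w a ^ (2 : ℤ) = 1 := by
      have h3 : starRingEnd ℂ (uw w a) = uw w a := by
        unfold uw
        rw [map_div₀, Complex.conj_ofReal]
        congr 1
        have h4 := InfinitePlace.isReal_iff.1 h
        rw [← ComplexEmbedding.conjugate_coe_eq, ComplexEmbedding.isReal_iff.1 h4]
      have h5 := conj_uw w ha
      rw [h3] at h5
      rw [zpow_two]
      nth_rewrite 2 [h5]
      exact mul_inv_cancel₀ (uw_ne w ha)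
    have h6 : κ w = κ w % 2 + 2 * (κ w / 2) := (Int.emod_add_mul_ediv (κ w) 2).symm
    nth_rewrite 2 [h6]
    rw [zpow_add₀ (uw_ne w ha), zpow_mul, h2, one_zpow, mul_one]
  · rw [if_neg h]

omit [NumberField K] in
theorem red_real (κ : InfinitePlace K → ℤ) (w : InfinitePlace K) (h : w.IsReal) :
    red κ w = 0 ∨ red κ w = 1 := by
  unfold red
  rw [if_pos h]
  exact Int.emod_two_eq_zero_or_one (κ w)

omit [NumberField K] in
/-- units modulo an ideal -/
theorem isUnit_mk_iff (𝔮 : Ideal (𝓞 K)) (α : 𝓞 K) :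
    IsUnit (Ideal.Quotient.mk 𝔮 α) ↔ IsCoprime (Ideal.span {α}) 𝔮 := by
  rw [Ideal.isCoprime_iff_exists]
  constructor
  · rintro ⟨u, hu⟩
    obtain ⟨b, hb⟩ := Ideal.Quotient.mk_surjective (↑u⁻¹ : 𝓞 K ⧸ 𝔮)
    have h : Ideal.Quotient.mk 𝔮 (α * b) = Ideal.Quotient.mk 𝔮 1 := by
      rw [map_mul, ← hu, hb, Units.mul_inv, map_one]
    refine ⟨α * b, Ideal.mul_mem_right _ _ (Ideal.mem_span_singleton_self α), 1 - α * b, ?_, by ring⟩
    have := Ideal.Quotient.eq.1 h.symm
    exact this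
  · rintro ⟨i, hi, j, hj, h⟩
    obtain ⟨b, rfl⟩ := Ideal.mem_span_singleton'.1 hi
    refine IsUnit.of_mul_eq_one (Ideal.Quotient.mk 𝔮 b) ?_
    rw [← map_mul, ← map_one (Ideal.Quotient.mk 𝔮)]
    refine Ideal.Quotient.eq.2 ?_
    have : α * b - 1 = - j := by
      linear_combination h
    rw [this]
    exact 𝔮.neg_mem hj

theorem isCoprime_smul (τ : K ≃ₐ[ℚ] K) (I J : Ideal (𝓞 K)) (h : IsCoprime I J) :
    IsCoprime (τ • I) (τ • J) := by
  rw [Ideal.isCoprime_iff_exists] at h ⊢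
  obtain ⟨i, hi, j, hj, h⟩ := h
  refine ⟨τ • i, Ideal.smul_mem_pointwise_smul _ _ _ hi, τ • j,
    Ideal.smul_mem_pointwise_smul _ _ _ hj, ?_⟩
  rw [← smul_add, h, smul_one]

theorem isCoprime_smul_iff (τ : K ≃ₐ[ℚ] K) (I J : Ideal (𝓞 K)) :
    IsCoprime I (τ⁻¹ • J) ↔ IsCoprime (τ • I) J := by
  constructor
  · intro h
    have := isCoprime_smul τ _ _ h
    rwa [smul_inv_smul] at this
  · intro h
    have := isCoprime_smul τ⁻¹ _ _ h
    rwa [inv_smul_smul] at this

theorem smul_span (τ : K ≃ₐ[ℚ] K) (α : 𝓞 K) :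
    τ • (Ideal.span {α} : Ideal (𝓞 K)) = Ideal.span {τ • α} := by
  rw [Ideal.pointwise_smul_def, Ideal.map_span, Set.image_singleton]
  rfl

section
variable (H : HChar K) (τ : K ≃ₐ[ℚ] K)

/-- the modulus -/
noncomputable def modq : Ideal (𝓞 K) := H.𝔮 * (τ⁻¹ • H.𝔮)

theorem modq_le : modq H τ ≤ H.𝔮 := Ideal.mul_le_left

theorem modq_le' : modq H τ ≤ Ideal.comap (MulSemiringAction.toRingHom (K ≃ₐ[ℚ] K) (𝓞 K) τ) H.𝔮 := by
  intro x hx
  have h : x ∈ τ⁻¹ • H.𝔮 := Ideal.mul_le_right hx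
  exact Ideal.mem_inv_pointwise_smul_iff.1 h

/-- the finite part -/
noncomputable def chi' : MulChar (𝓞 K ⧸ modq H τ) ℂ where
  toFun x := H.χ (Ideal.Quotient.factor (modq_le H τ) x) *
    starRingEnd ℂ (H.χ (Ideal.quotientMap H.𝔮
      (MulSemiringAction.toRingHom (K ≃ₐ[ℚ] K) (𝓞 K) τ) (modq_le' H τ) x))
  map_one' := by
    simp
  map_mul' x y := by
    simp only [map_mul]
    ring
  map_nonunit' x hx := by
    obtain ⟨α, rfl⟩ := Ideal.Quotient.mk_surjective x
    simp only [Ideal.Quotient.factor_mk, Ideal.quotientMap_mk]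
    rw [isUnit_mk_iff] at hx
    unfold modq at hx
    rw [IsCoprime.mul_right_iff, isCoprime_smul_iff, smul_span, ← isUnit_mk_iff, ← isUnit_mk_iff,
      not_and_or] at hx
    rcases hx with hx | hx
    · rw [H.χ.map_nonunit hx, zero_mul]
    · have : H.χ (Ideal.Quotient.mk H.𝔮
          ((MulSemiringAction.toRingHom (K ≃ₐ[ℚ] K) (𝓞 K) τ) α)) = 0 := H.χ.map_nonunit hx
      rw [this, map_zero, mul_zero]

theorem chi'_mk (α : 𝓞 K) : chi' H τ (Ideal.Quotient.mk _ α) =
    H.χ (Ideal.Quotient.mk _ α) * starRingEnd ℂ (H.χ (Ideal.Quotient.mk _ (τ • α))) := rfl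

theorem isCoprime_modq (𝔞 : Ideal (𝓞 K)) :
    IsCoprime 𝔞 (modq H τ) ↔ IsCoprime 𝔞 H.𝔮 ∧ IsCoprime (τ • 𝔞) H.𝔮 := by
  unfold modq
  rw [IsCoprime.mul_right_iff, isCoprime_smul_iff]

theorem thet_apply {ψ : Ideal (𝓞 K) →* ℂ} {τ : K ≃ₐ[ℚ] K} (hτ : τ ≠ 1) (𝔞 : Ideal (𝓞 K)) :
    thet ψ τ 𝔞 = ψ 𝔞 * starRingEnd ℂ (ψ (τ • 𝔞)) := by
  unfold thet
  rw [if_neg hτ]
  rfl

end

end Pool.Agent.G4I.THH

namespace Pool.Agent.G4I

open NumberField NumberField.InfinitePlace Complex MeasureTheory Filter Topology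
open Pool.Agent.HZ
open scoped Pointwise

variable {K : Type} [Field K] [NumberField K]

/-- THH: the function `θ_τ` is a Hecke character -/
theorem thet_hchar_pr (H : HChar K) {τ : K ≃ₐ[ℚ] K} (hτ : τ ≠ 1) :
    ∃ H' : HChar K, H'.ψ = thet H.ψ τ := by
  obtain ⟨κ', hκ'⟩ := THH.conj_psiInf_smul H.κ H.lam τ
  have htop : THH.modq H τ ≠ ⊤ := fun h => H.ne_top (top_le_iff.1 (h ▸ THH.modq_le H τ))
  refine ⟨⟨THH.modq H τ, THH.red (fun w => H.κ w + κ' w), fun w => H.lam w + (- H.lam (τ • w)),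
    THH.chi' H τ, thet H.ψ τ, ?_, htop, ?_, ?_, ?_⟩, rfl⟩
  · unfold THH.modq
    rw [Ne, Ideal.mul_eq_bot, not_or]
    refine ⟨H.ne_bot, fun h => H.ne_bot ?_⟩
    have h2 : τ • (τ⁻¹ • H.𝔮) = τ • (⊥ : Ideal (𝓞 K)) := by rw [h]
    rw [smul_inv_smul] at h2
    rw [h2, Ideal.pointwise_smul_def, Ideal.map_bot]
  · exact fun w hw => THH.red_real _ w hw
  · rw [Finset.sum_add_distrib, H.lam_sum, Finset.sum_neg_distrib, zero_add, neg_eq_zero]
    rw [← H.lam_sum]
    exact Equiv.sum_comp (MulAction.toPerm τ) H.lam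
  · refine ⟨?_, ?_, ?_⟩
    · intro 𝔞 h
      rw [THH.isCoprime_modq] at h
      rw [THH.thet_apply hτ, norm_mul, Complex.norm_conj, H.isHecke.norm_eq_one _ h.1,
        H.isHecke.norm_eq_one _ h.2, one_mul]
    · intro 𝔞 h
      rw [THH.isCoprime_modq, not_and_or] at h
      rw [THH.thet_apply hτ]
      rcases h with h | h
      · rw [H.isHecke.eq_zero _ h, zero_mul]
      · rw [H.isHecke.eq_zero _ h, map_zero, mul_zero]
    · intro α h
      have hα : (α : K) ≠ 0 := by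
        intro h0
        have h1 : α = 0 := by exact_mod_cast h0
        rw [h1, map_zero, isUnit_zero_iff] at h
        apply htop
        rw [Ideal.eq_top_iff_one, ← Ideal.Quotient.eq_zero_iff_mem, map_one, ← h]
      rw [THH.isUnit_mk_iff, THH.isCoprime_modq, THH.smul_span, ← THH.isUnit_mk_iff,
        ← THH.isUnit_mk_iff] at h
      rw [THH.thet_apply hτ, THH.chi'_mk, THH.psiInf_red _ _ hα,
        ← THH.psiInf_mul_psiInf _ _ _ _ hα, ← hκ' _ hα, THH.smul_span,
        H.isHecke.principal _ h.1, H.isHecke.principal _ h.2, map_mul]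
      have : ((τ • α : 𝓞 K) : K) = τ (α : K) := rfl
      rw [this]
      ring

end Pool.Agent.G4I
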