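import Pool.Agent.Lib_helper44.G4I.Defs
import Pool.Agent.Lib_helper62.G4I.THH

/-!
# TWH: the twist of a Hecke character by a Dirichlet character is a Hecke character
-/

namespace Pool.Agent.G4I.TWH

open NumberField NumberField.InfinitePlace Complex MeasureTheory Filter Topology
open Pool.Agent.HZ
open scoped Pointwise

variable {K : Type} [Field K] [NumberField K]

/-- the norm modulo `q` only depends on the class modulo `q` -/
theorem norm_congr {q : ℕ} {α β : 𝓞 K} (h : α - β ∈ Ideal.span {(q : 𝓞 K)}) :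
    ((Algebra.norm ℤ α : ℤ) : ZMod q) = ((Algebra.norm ℤ β : ℤ) : ZMod q) := by
  classical
  obtain ⟨γ, hγ⟩ := Ideal.mem_span_singleton'.1 h
  let b := Module.Free.chooseBasis ℤ (𝓞 K)
  rw [Algebra.norm_eq_matrix_det b, Algebra.norm_eq_matrix_det b]
  have h1 : ∀ M : Matrix (Module.Free.ChooseBasisIndex ℤ (𝓞 K))
      (Module.Free.ChooseBasisIndex ℤ (𝓞 K)) ℤ, ((M.det : ℤ) : ZMod q) =
      (M.map (Int.castRingHom (ZMod q))).det := by
    intro M
    have := RingHom.map_det (Int.castRingHom (ZMod q)) M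
    rw [eq_intCast] at this
    rw [this]
    rfl
  rw [h1, h1]
  congr 1
  have h2 : α = β + γ * (q : 𝓞 K) := by rw [hγ]; ring
  have h3 : Algebra.leftMulMatrix b α = Algebra.leftMulMatrix b β +
      (q : ℤ) • Algebra.leftMulMatrix b γ := by
    rw [h2, map_add, ← map_zsmul]
    congr 2
    rw [zsmul_eq_mul]
    push_cast
    ring
  rw [h3]
  ext i j
  rw [Matrix.map_apply, Matrix.map_apply, Matrix.add_apply, Matrix.smul_apply, smul_eq_mul,
    map_add, map_mul]
  simp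

theorem natAbs_cast_nonneg {q : ℕ} {n : ℤ} (h : 0 ≤ n) :
    ((n.natAbs : ℕ) : ZMod q) = ((n : ℤ) : ZMod q) := by
  rw [← Int.cast_natCast, Int.natAbs_of_nonneg h]

theorem natAbs_cast_nonpos {q : ℕ} {n : ℤ} (h : n ≤ 0) :
    ((n.natAbs : ℕ) : ZMod q) = - ((n : ℤ) : ZMod q) := by
  rw [← Int.cast_natCast, Int.ofNat_natAbs_of_nonpos h, Int.cast_neg]

theorem absNorm_coprime_of {q : ℕ} (_hq : 0 < q) {𝔞 : Ideal (𝓞 K)} :
    IsCoprime 𝔞 (Ideal.span {(q : 𝓞 K)}) ↔ IsUnit ((Ideal.absNorm 𝔞 : ℕ) : ZMod q) := by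
  rw [ZMod.isUnit_iff_coprime]
  constructor
  · intro h
    by_contra hc
    obtain ⟨p, hp, hp1, hp2⟩ := Nat.Prime.not_coprime_iff_dvd.1 hc
    have h0 : 𝔞 ≠ ⊥ := by
      rintro rfl
      obtain ⟨i, hi, j, hj, h⟩ := Ideal.isCoprime_iff_exists.1 h
      rw [Ideal.mem_bot.1 hi, zero_add] at h
      rw [h] at hj
      have h2 : (q : 𝓞 K) ∣ 1 := Ideal.mem_span_singleton.1 hj
      have h3 : (p : 𝓞 K) ∣ 1 := dvd_trans (by exact_mod_cast Nat.cast_dvd_cast hp2) h2
      have h4 := map_dvd (Algebra.norm ℤ) h3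
      rw [map_one] at h4
      have h5 : Algebra.norm ℤ ((p : 𝓞 K)) = (p : ℤ) ^ Module.finrank ℤ (𝓞 K) := by
        have := Algebra.norm_algebraMap (R := ℤ) (S := 𝓞 K) (p : ℤ)
        simpa using this
      rw [h5] at h4
      have h6 : (p : ℤ) ∣ 1 := dvd_trans (dvd_pow_self _ Module.finrank_pos.ne') h4
      have h7 : p ∣ 1 := by exact_mod_cast h6
      exact hp.one_lt.ne' (Nat.dvd_one.1 h7)
    have : Finite (𝓞 K ⧸ 𝔞) := by
      have := Ideal.absNorm_ne_zero_iff 𝔞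
      exact this.1 (by rwa [Ne, Ideal.absNorm_eq_zero_iff])
    have h1 : p ∣ Nat.card (𝓞 K ⧸ 𝔞) := by
      rw [← Submodule.cardQuot_apply, ← Ideal.absNorm_apply]
      exact hp1
    have := Fact.mk hp
    obtain ⟨x, hx⟩ := exists_prime_addOrderOf_dvd_card' (G := 𝓞 K ⧸ 𝔞) p h1
    obtain ⟨y, rfl⟩ := Ideal.Quotient.mk_surjective x
    have h2 : (p : ℕ) • (Ideal.Quotient.mk 𝔞 y) = 0 := by
      rw [← hx]
      exact addOrderOf_nsmul_eq_zero _
    have h3 : (q : 𝓞 K) * y ∈ 𝔞 := by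
      obtain ⟨c, hc⟩ := hp2
      rw [← map_nsmul, Ideal.Quotient.eq_zero_iff_mem, nsmul_eq_mul] at h2
      rw [hc]
      push_cast
      rw [mul_right_comm]
      exact Ideal.mul_mem_right _ _ h2
    have h4 : y ∈ 𝔞 := by
      obtain ⟨i, hi, j, hj, h⟩ := Ideal.isCoprime_iff_exists.1 h
      obtain ⟨k, rfl⟩ := Ideal.mem_span_singleton'.1 hj
      have : y = i * y + k * ((q : 𝓞 K) * y) := by
        linear_combination (-y) * h
      rw [this]
      exact 𝔞.add_mem (Ideal.mul_mem_right _ _ hi) (Ideal.mul_mem_left _ _ h3)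
    rw [Ideal.Quotient.eq_zero_iff_mem.2 h4, addOrderOf_zero] at hx
    exact hp.one_lt.ne hx
  · intro h
    rw [Ideal.isCoprime_iff_exists]
    have h1 : IsCoprime (Ideal.absNorm 𝔞 : ℤ) (q : ℤ) := Nat.isCoprime_iff_coprime.2 h
    obtain ⟨a, b, hab⟩ := h1
    refine ⟨(a : 𝓞 K) * (Ideal.absNorm 𝔞 : 𝓞 K), Ideal.mul_mem_left _ _ (Ideal.absNorm_mem 𝔞),
      (b : 𝓞 K) * (q : 𝓞 K), Ideal.mul_mem_left _ _ (Ideal.mem_span_singleton_self _), ?_⟩
    exact_mod_cast congrArg (Int.cast : ℤ → 𝓞 K) hab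

theorem isUnit_norm_iff {q : ℕ} (hq : 0 < q) (α : 𝓞 K) :
    IsUnit (Ideal.Quotient.mk (Ideal.span {(q : 𝓞 K)}) α) ↔
      IsUnit ((Algebra.norm ℤ α : ℤ) : ZMod q) := by
  rw [THH.isUnit_mk_iff, absNorm_coprime_of hq, Ideal.absNorm_span_singleton]
  have h : (((Algebra.norm ℤ α).natAbs : ℕ) : ZMod q) = ((Algebra.norm ℤ α : ℤ) : ZMod q) ∨
      (((Algebra.norm ℤ α).natAbs : ℕ) : ZMod q) = - ((Algebra.norm ℤ α : ℤ) : ZMod q) := by
    rcases le_total 0 (Algebra.norm ℤ α) with h | h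
    · exact Or.inl (natAbs_cast_nonneg h)
    · exact Or.inr (natAbs_cast_nonpos h)
  rcases h with h | h
  · rw [h]
  · rw [h, IsUnit.neg_iff]

section
variable (H : HChar K) {q : ℕ}

/-- the finite part of the twist -/
noncomputable def chiq (hq : 0 < q) (η : DirichletCharacter ℂ q) :
    MulChar (𝓞 K ⧸ H.𝔮 * Ideal.span {(q : 𝓞 K)}) ℂ where
  toFun x := H.χ (Ideal.Quotient.factor Ideal.mul_le_left x) *
    Quotient.liftOn' (Ideal.Quotient.factor (T := Ideal.span {(q : 𝓞 K)}) Ideal.mul_le_right x)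
      (fun α : 𝓞 K => η ((Algebra.norm ℤ α : ℤ) : ZMod q)) (by
        intro a b hab
        have h := (Submodule.quotientRel_def _).1 hab
        rw [norm_congr h])
  map_one' := by
    rw [map_one, map_one, map_one, one_mul]
    change η ((Algebra.norm ℤ (1 : 𝓞 K) : ℤ) : ZMod q) = 1
    rw [map_one, Int.cast_one, map_one]
  map_mul' x y := by
    obtain ⟨α, rfl⟩ := Ideal.Quotient.mk_surjective x
    obtain ⟨β, rfl⟩ := Ideal.Quotient.mk_surjective y
    rw [← map_mul]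
    change H.χ (Ideal.Quotient.mk _ (α * β)) * η ((Algebra.norm ℤ (α * β) : ℤ) : ZMod q) =
      H.χ (Ideal.Quotient.mk _ α) * η ((Algebra.norm ℤ α : ℤ) : ZMod q) *
      (H.χ (Ideal.Quotient.mk _ β) * η ((Algebra.norm ℤ β : ℤ) : ZMod q))
    rw [map_mul, map_mul, map_mul, Int.cast_mul, map_mul]
    ring
  map_nonunit' x hx := by
    obtain ⟨α, rfl⟩ := Ideal.Quotient.mk_surjective x
    change H.χ (Ideal.Quotient.mk _ α) * η ((Algebra.norm ℤ α : ℤ) : ZMod q) = 0
    rw [THH.isUnit_mk_iff, IsCoprime.mul_right_iff, ← THH.isUnit_mk_iff, ← THH.isUnit_mk_iff,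
      isUnit_norm_iff hq, not_and_or] at hx
    rcases hx with hx | hx
    · rw [H.χ.map_nonunit hx, zero_mul]
    · rw [η.map_nonunit hx, mul_zero]

theorem chiq_mk (hq : 0 < q) (η : DirichletCharacter ℂ q) (α : 𝓞 K) :
    chiq H hq η (Ideal.Quotient.mk _ α) =
      H.χ (Ideal.Quotient.mk _ α) * η ((Algebra.norm ℤ α : ℤ) : ZMod q) := rfl

end

/-- the product of the signs at the real places -/
noncomputable def sg (a : K) : ℂ := open Classical in
  ∏ w : InfinitePlace K, if w.IsReal then THH.uw w a else 1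

omit [NumberField K] in
theorem uw_real {w : InfinitePlace K} (hw : w.IsReal) {a : K} (ha : a ≠ 0) :
    THH.uw w a ^ 2 = 1 := by
  have h3 : starRingEnd ℂ (THH.uw w a) = THH.uw w a := by
    unfold THH.uw
    rw [map_div₀, Complex.conj_ofReal]
    congr 1
    have h4 := InfinitePlace.isReal_iff.1 hw
    rw [← ComplexEmbedding.conjugate_coe_eq, ComplexEmbedding.isReal_iff.1 h4]
  have h5 := THH.conj_uw w ha
  rw [h3] at h5
  rw [sq]
  nth_rewrite 2 [h5]
  exact mul_inv_cancel₀ (THH.uw_ne w ha)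

theorem norm_sg {a : K} (ha : a ≠ 0) : ‖sg a‖ = 1 := by
  classical
  unfold sg
  rw [norm_prod]
  refine Finset.prod_eq_one fun w _ => ?_
  split_ifs
  · exact THH.norm_uw w ha
  · exact norm_one

theorem sg_sq {a : K} (ha : a ≠ 0) : sg a ^ 2 = 1 := by
  classical
  unfold sg
  rw [← Finset.prod_pow]
  refine Finset.prod_eq_one fun w _ => ?_
  split_ifs with h
  · exact uw_real h ha
  · exact one_pow _

theorem norm_eq_sg (a : K) : ((Algebra.norm ℚ a : ℚ) : ℂ) = sg a * ((|Algebra.norm ℚ a| : ℚ) : ℂ) := by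
  classical
  by_cases ha : a = 0
  · rw [ha, Algebra.norm_zero]
    simp
  have h1 : ((Algebra.norm ℚ a : ℚ) : ℂ) = ∏ φ : K →+* ℂ, φ a := by
    have h := Algebra.norm_eq_prod_embeddings ℚ ℂ a
    rw [← Fintype.prod_equiv (RingHom.equivRatAlgHom K ℂ) (fun f => f a)
      (fun φ => φ a) fun _ => by simp [RingHom.equivRatAlgHom_apply]] at h
    rw [← h]
    simp
  have h2 : ((|Algebra.norm ℚ a| : ℚ) : ℂ) = ∏ w : InfinitePlace K, ((w a : ℝ) : ℂ) ^ mult w := by
    have h := prod_eq_abs_norm a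
    have h' : ((∏ w : InfinitePlace K, (w a) ^ mult w : ℝ) : ℂ) =
        (((|Algebra.norm ℚ a| : ℚ) : ℝ) : ℂ) := by
      rw [h]
    rw [Complex.ofReal_prod] at h'
    push_cast at h'
    rw [h']
    norm_cast
  rw [h1, h2, ← Finset.prod_fiberwise Finset.univ InfinitePlace.mk (fun φ => φ a)]
  unfold sg
  rw [← Finset.prod_mul_distrib]
  refine Finset.prod_congr rfl fun w _ => ?_
  have hw0 : ((w a : ℝ) : ℂ) ≠ 0 := by
    rw [Ne, Complex.ofReal_eq_zero, map_eq_zero]
    exact ha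
  have hf : (Finset.univ.filter fun φ : K →+* ℂ => InfinitePlace.mk φ = w) =
      {w.embedding} ∪ {ComplexEmbedding.conjugate w.embedding} := by
    ext φ
    rw [Finset.mem_filter, Finset.mem_union, Finset.mem_singleton, Finset.mem_singleton]
    constructor
    · rintro ⟨_, h⟩
      rw [← mk_embedding w, mk_eq_iff] at h
      rcases h with h | h
      · exact Or.inl h
      · right
        rw [← h]
        exact (star_star φ).symm
    · rintro (h | h)
      · exact ⟨Finset.mem_univ _, by rw [h, mk_embedding]⟩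
      · exact ⟨Finset.mem_univ _, by rw [h, mk_conjugate_eq, mk_embedding]⟩
  rw [hf]
  split_ifs with hw
  · have h4 := InfinitePlace.isReal_iff.1 hw
    rw [ComplexEmbedding.isReal_iff.1 h4, Finset.union_idempotent, Finset.prod_singleton,
      hw.mult_eq_one, pow_one]
    unfold THH.uw
    rw [div_mul_cancel₀ _ hw0]
  · rw [Finset.prod_union, Finset.prod_singleton, Finset.prod_singleton, one_mul,
      (not_isReal_iff_isComplex.1 hw).mult_eq_two, ComplexEmbedding.conjugate_coe_eq,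
      Complex.mul_conj, Complex.normSq_eq_norm_sq, norm_embedding_eq]
    · push_cast
      rfl
    · rw [Finset.disjoint_singleton]
      intro h
      apply hw
      rw [isReal_iff, ComplexEmbedding.isReal_iff]
      exact h.symm

theorem psiInf_kapd (κ : InfinitePlace K → ℤ) (lam : InfinitePlace K → ℝ)
    (hκ : ∀ w : InfinitePlace K, w.IsReal → κ w = 0 ∨ κ w = 1) {a : K} (ha : a ≠ 0) :
    psiInf (kapd κ 1) lam a = sg a * psiInf κ lam a := by
  classical
  rw [THH.psiInf_eq, THH.psiInf_eq]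
  unfold sg
  rw [← Finset.prod_mul_distrib]
  refine Finset.prod_congr rfl fun w _ => ?_
  rw [← mul_assoc]
  congr 1
  unfold kapd
  by_cases hw : w.IsReal
  · rw [if_pos ⟨hw, rfl⟩, if_pos hw]
    rcases hκ w hw with h | h
    · rw [h]
      simp
    · rw [h]
      simp only [sub_self, zpow_zero, zpow_one]
      rw [← sq, uw_real hw ha]
  · rw [if_neg (fun h => hw h.1), if_neg hw, one_mul]

omit [NumberField K] in
theorem kapd_zero (κ : InfinitePlace K → ℤ) : kapd κ 0 = κ := by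
  funext w
  unfold kapd
  rw [if_neg]
  rintro ⟨_, h⟩
  exact absurd h (by decide)

theorem sg_of_norm {α : 𝓞 K} (hα : α ≠ 0) :
    (0 < Algebra.norm ℤ α ∧ sg (α : K) = 1) ∨ (Algebra.norm ℤ α < 0 ∧ sg (α : K) = -1) := by
  have h := norm_eq_sg (α : K)
  have h0 : Algebra.norm ℤ α ≠ 0 := Algebra.norm_ne_zero_iff.2 hα
  rw [← Algebra.coe_norm_int] at h
  have h1 : (((Algebra.norm ℤ α : ℤ) : ℚ) : ℂ) = ((Algebra.norm ℤ α : ℤ) : ℂ) := by norm_cast
  have h2 : ((|((Algebra.norm ℤ α : ℤ) : ℚ)| : ℚ) : ℂ) = ((|Algebra.norm ℤ α| : ℤ) : ℂ) := by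
    norm_cast
  rw [h1, h2] at h
  have h3 : ((Algebra.norm ℤ α : ℤ) : ℂ) ≠ 0 := by exact_mod_cast h0
  rcases lt_or_gt_of_ne h0 with h4 | h4
  · right
    refine ⟨h4, ?_⟩
    rw [abs_of_neg h4] at h
    push_cast at h
    have h5 : (sg (α : K) + 1) * ((Algebra.norm ℤ α : ℤ) : ℂ) = 0 := by
      linear_combination h
    rcases mul_eq_zero.1 h5 with h6 | h6
    · exact eq_neg_of_add_eq_zero_left h6
    · exact absurd h6 h3
  · left
    refine ⟨h4, ?_⟩
    rw [abs_of_pos h4] at h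
    have h5 : (sg (α : K) - 1) * ((Algebra.norm ℤ α : ℤ) : ℂ) = 0 := by
      linear_combination -h
    rcases mul_eq_zero.1 h5 with h6 | h6
    · exact sub_eq_zero.1 h6
    · exact absurd h6 h3

theorem eta_abs {q : ℕ} (η : DirichletCharacter ℂ q) (κ : InfinitePlace K → ℤ)
    (lam : InfinitePlace K → ℝ) (hκ : ∀ w : InfinitePlace K, w.IsReal → κ w = 0 ∨ κ w = 1)
    {α : 𝓞 K} (hα : α ≠ 0) :
    psiInf κ lam (α : K) * η (((Algebra.norm ℤ α).natAbs : ℕ) : ZMod q) =
      η ((Algebra.norm ℤ α : ℤ) : ZMod q) * psiInf (kapd κ (G4.par η)) lam (α : K) := by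
  have hα' : (α : K) ≠ 0 := by
    intro h
    exact hα (by exact_mod_cast h)
  have hn : Algebra.norm ℤ α < 0 → (((Algebra.norm ℤ α).natAbs : ℕ) : ZMod q) =
      (-1) * ((Algebra.norm ℤ α : ℤ) : ZMod q) := by
    intro h
    rw [natAbs_cast_nonpos h.le]
    ring
  have hpos : 0 < Algebra.norm ℤ α → (((Algebra.norm ℤ α).natAbs : ℕ) : ZMod q) =
      ((Algebra.norm ℤ α : ℤ) : ZMod q) := by
    intro h
    exact natAbs_cast_nonneg h.le
  rcases sg_of_norm hα with ⟨h1, h2⟩ | ⟨h1, h2⟩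
  · rw [hpos h1]
    unfold G4.par
    split_ifs
    · rw [psiInf_kapd κ lam hκ hα', h2]
      ring
    · rw [kapd_zero]
      ring
  · rw [hn h1, map_mul]
    unfold G4.par
    split_ifs with ho
    · rw [psiInf_kapd κ lam hκ hα', h2]
      have : η (-1) = -1 := ho
      rw [this]
      ring
    · rw [kapd_zero]
      have : η (-1) = 1 := by
        rcases η.even_or_odd with h | h
        · exact h
        · exact absurd h ho
      rw [this]
      ring

end Pool.Agent.G4I.TWH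

namespace Pool.Agent.G4I

open NumberField NumberField.InfinitePlace Complex MeasureTheory Filter Topology
open Pool.Agent.HZ
open scoped Pointwise

variable {K : Type} [Field K] [NumberField K]

/-- TWH: the twist is a Hecke character -/
theorem twist_hecke_pr (H : HChar K) {q : ℕ} (hq : 1 < q)
    (hc : q.Coprime (Ideal.absNorm H.𝔮 * (discr K).natAbs)) (η : DirichletCharacter ℂ q) :
    ∃ χ' : MulChar (𝓞 K ⧸ H.𝔮 * Ideal.span {(q : 𝓞 K)}) ℂ,
      (∀ α : 𝓞 K, χ' (Ideal.Quotient.mk _ α) =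
        H.χ (Ideal.Quotient.mk _ α) * η ((Algebra.norm ℤ α : ℤ) : ZMod q)) ∧
      IsHecke (H.𝔮 * Ideal.span {(q : 𝓞 K)}) (kapd H.κ (G4.par η)) H.lam χ' (twist H.ψ η) := by
  have hq0 : 0 < q := by omega
  refine ⟨TWH.chiq H hq0 η, fun α => TWH.chiq_mk H hq0 η α, ?_, ?_, ?_⟩
  · intro 𝔞 h
    rw [IsCoprime.mul_right_iff] at h
    change ‖H.ψ 𝔞 * η ((Ideal.absNorm 𝔞 : ℕ) : ZMod q)‖ = 1
    obtain ⟨u, hu⟩ := (TWH.absNorm_coprime_of hq0).1 h.2
    have : NeZero q := ⟨hq0.ne'⟩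
    rw [norm_mul, H.isHecke.norm_eq_one _ h.1, one_mul, ← hu]
    exact DirichletCharacter.unit_norm_eq_one η u
  · intro 𝔞 h
    rw [IsCoprime.mul_right_iff, not_and_or] at h
    change H.ψ 𝔞 * η ((Ideal.absNorm 𝔞 : ℕ) : ZMod q) = 0
    rcases h with h | h
    · rw [H.isHecke.eq_zero _ h, zero_mul]
    · rw [TWH.absNorm_coprime_of hq0] at h
      rw [η.map_nonunit h, mul_zero]
  · intro α h
    have hα : α ≠ 0 := by
      rintro rfl
      rw [map_zero, isUnit_zero_iff] at h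
      apply H.ne_top
      rw [Ideal.eq_top_iff_one]
      apply Ideal.mul_le_left (J := Ideal.span {(q : 𝓞 K)})
      rw [← Ideal.Quotient.eq_zero_iff_mem, map_one, ← h]
    rw [THH.isUnit_mk_iff, IsCoprime.mul_right_iff, ← THH.isUnit_mk_iff, ← THH.isUnit_mk_iff] at h
    change H.ψ (Ideal.span {α}) * η ((Ideal.absNorm (Ideal.span {α}) : ℕ) : ZMod q) = _
    rw [H.isHecke.principal _ h.1, Ideal.absNorm_span_singleton, TWH.chiq_mk, mul_assoc,
      TWH.eta_abs η H.κ H.lam H.κ_real hα, mul_assoc]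

end Pool.Agent.G4I
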